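import Mathlib

/-!
# MP_c8d5ab_co: every natural number is the lim inf of the closed complexity of an aperiodic
pure morphic word

* `k = 0`: the fixed point `y` of `a → ab`, `b → cb`, `c → ad`, `d → cd` (a four letter form of the
  paperfolding word) has no closed factor of length `2 ^ j`, `j ≥ 3`: a closed factor of length
  `2 n` can be desubstituted to a closed factor of length `n`.
* `k ≥ 1`: the fixed point `z e₀ f e₁⁴ f e₂¹⁶ f …` of `z → z e₀ f`, `eᵢ → eᵢ₊₁⁴`, `f → f` (indices
  modulo `k`) has exactly the `k` closed factors `eᵢⁿ` of length `n = 4 ^ t`, `t ≥ 3`.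
-/

set_option autoImplicit false

namespace Pool.Agent.Results.MP_c8d5ab_co.AllValues

/-- The positions at which `u` occurs in `w`. -/
def occ {A : Type} (u w : List A) : Set ℕ := {p | p ≤ w.length ∧ u <+: w.drop p}

/-- A finite word `w` is closed if `|w| ≤ 1` or if it has a factor `u ≠ w` that is a prefix and a
suffix of `w` and occurs in `w` exactly twice. -/
def IsClosed {A : Type} (w : List A) : Prop :=
  w.length ≤ 1 ∨ ∃ u, u ≠ w ∧ u <+: w ∧ u <:+ w ∧ (occ u w).ncard = 2

/-- The factor of length `n` of the infinite word `x` at position `s`. -/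
def fac {A : Type} (x : ℕ → A) (s n : ℕ) : List A := (List.range n).map fun k => x (s + k)

/-- The closed complexity: the number of closed factors of length `n` of `x`. -/
noncomputable def cl {A : Type} (x : ℕ → A) (n : ℕ) : ℕ :=
  Set.ncard {w | (∃ s, w = fac x s n) ∧ IsClosed w}

/-- `x` is ultimately periodic. -/
def UltimatelyPeriodic {A : Type} (x : ℕ → A) : Prop :=
  ∃ p N, 1 ≤ p ∧ ∀ n, N ≤ n → x (n + p) = x n

/-- The morphism of the free monoid given by the images of the letters. -/
def morph {A : Type} (φ : A → List A) (w : List A) : List A := w.flatMap φ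

/-- `x = φ^ω(a)` for a morphism `φ` such that `φ(a)` begins with `a` and `|φ^m(a)| → ∞`: all
`φ^m(a)` are prefixes of `x`. -/
def PureMorphic {A : Type} (x : ℕ → A) : Prop :=
  ∃ (φ : A → List A) (a : A), (∃ t, φ a = a :: t) ∧
    Filter.Tendsto (fun m => ((morph φ)^[m] [a]).length) Filter.atTop Filter.atTop ∧
    ∀ m, (morph φ)^[m] [a] = fac x 0 ((morph φ)^[m] [a]).length

theorem fac_length {A : Type} (x : ℕ → A) (s n : ℕ) : (fac x s n).length = n := by simp [fac]

theorem occ_finite {A : Type} (u w : List A) : (occ u w).Finite :=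
  (Set.finite_Iic w.length).subset fun _ h => h.1

/-- Membership in `occ` for prefixes of factors. -/
theorem mem_occ {A : Type} {x : ℕ → A} {s n p m : ℕ} {u : List A} (hu : u <+: fac x s n)
    (hm : u.length = m) (hp : p + m ≤ n) (h : ∀ k < m, x (s + (p + k)) = x (s + k)) :
    p ∈ occ u (fac x s n) := by
  obtain ⟨h1, h2⟩ := List.prefix_iff_getElem.1 hu
  refine ⟨by rw [fac_length]; omega, List.prefix_iff_getElem.2 ⟨?_, ?_⟩⟩
  · rw [List.length_drop, fac_length]
    omega
  · intro k hk
    rw [h2 k hk]
    simp only [fac, List.getElem_map, List.getElem_range, List.getElem_drop]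
    exact (h k (by omega)).symm

theorem three_occ {A : Type} {u w : List A} {a b c : ℕ} (ha : a ∈ occ u w) (hb : b ∈ occ u w)
    (hc : c ∈ occ u w) (hab : a < b) (hbc : b < c) : (occ u w).ncard ≠ 2 := by
  intro h
  have h3 : ({a, b, c} : Finset ℕ).card = 3 := by
    rw [Finset.card_insert_of_notMem, Finset.card_insert_of_notMem, Finset.card_singleton]
    · simp; omega
    · simp; omega
  have : (({a, b, c} : Finset ℕ) : Set ℕ) ⊆ occ u w := by
    intro y hy
    simp only [Finset.coe_insert, Finset.coe_singleton, Set.mem_insert_iff,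
      Set.mem_singleton_iff] at hy
    rcases hy with rfl | rfl | rfl <;> assumption
  have := Set.ncard_le_ncard this (occ_finite u w)
  rw [Set.ncard_coe_finset, h3] at this
  omega

/-- What a border says about the word. -/
theorem border {A : Type} {x : ℕ → A} {s n : ℕ} {u : List A} (hne : u ≠ fac x s n)
    (hu : u <+: fac x s n) (hs : u <:+ fac x s n) :
    u.length < n ∧ ∀ k < u.length, x (s + (n - u.length + k)) = x (s + k) := by
  obtain ⟨h1, h2⟩ := List.prefix_iff_getElem.1 hu
  obtain ⟨h3, h4⟩ := List.suffix_iff_getElem.1 hs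
  rw [fac_length] at h1
  have hlt : u.length < n := by
    rcases Nat.lt_or_ge u.length n with h | h
    · exact h
    · exact absurd (hu.eq_of_length (by rw [fac_length]; omega)) hne
  refine ⟨hlt, fun k hk => ?_⟩
  have e1 := h2 k hk
  have e2 := h4 k hk
  rw [e1] at e2
  simp only [fac, List.getElem_map, List.getElem_range, List.length_map,
    List.length_range] at e2
  rw [← e2]
  congr 2
  omega

/-- The return time `p` witnessing that the factor of length `n` at `s` is closed. -/
def R {A : Type} (x : ℕ → A) (s n p : ℕ) : Prop :=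
  1 ≤ p ∧ p < n ∧ (∀ k, k + p < n → x (s + (p + k)) = x (s + k)) ∧
    ∀ q, 0 < q → q < p → ¬ ∀ k, k + p < n → x (s + (q + k)) = x (s + k)

theorem closed_R {A : Type} {x : ℕ → A} {s n : ℕ} (hn : 2 ≤ n) (h : IsClosed (fac x s n)) :
    ∃ p, R x s n p := by
  rcases h with h | ⟨u, hne, hu, hs, h2⟩
  · rw [fac_length] at h
    omega
  · obtain ⟨hlt, hb⟩ := border hne hu hs
    generalize hm : u.length = m at hlt hb
    have o0 : 0 ∈ occ u (fac x s n) := mem_occ hu hm (by omega) (by simp)
    rcases Nat.eq_zero_or_pos m with rfl | hpos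
    · exact absurd h2 (three_occ o0 (mem_occ (p := 1) hu hm (by omega) (by simp))
        (mem_occ (p := 2) hu hm (by omega) (by simp)) (by norm_num) (by norm_num))
    · refine ⟨n - m, by omega, by omega, fun k hk => hb k (by omega), fun q h0 h1 hq => ?_⟩
      exact three_occ o0 (mem_occ (p := q) hu hm (by omega) fun k hk => hq k (by omega))
        (mem_occ (p := n - m) hu hm (by omega) fun k hk => hb k hk) h0 h1 h2

theorem facs_finite {A : Type} [Fintype A] (x : ℕ → A) (n : ℕ) :
    {w | (∃ s, w = fac x s n) ∧ IsClosed w}.Finite :=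
  (List.finite_length_eq A n).subset (by
    rintro w ⟨⟨s, rfl⟩, -⟩
    exact fac_length x s n)

theorem liminf_eq {f : ℕ → ℕ} {k : ℕ} (h1 : ∀ n, 1 ≤ n → k ≤ f n)
    (h2 : ∀ a, ∃ n, a ≤ n ∧ f n = k) :
    Filter.liminf (fun n => (f n : ℕ∞)) Filter.atTop = k := by
  apply le_antisymm
  · refine Filter.liminf_le_of_frequently_le' ?_
    rw [Filter.frequently_atTop]
    intro a
    obtain ⟨n, hn, hf⟩ := h2 a
    exact ⟨n, hn, by rw [hf]⟩
  · refine Filter.le_liminf_of_le (by isBoundedDefault) ?_
    filter_upwards [Filter.eventually_ge_atTop 1] with n hn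
    exact_mod_cast h1 n hn

/-! ### The case `k = 0` -/

/-- The morphism `a → ab`, `b → cb`, `c → ad`, `d → cd` with `a, b, c, d = 0, 1, 2, 3`. -/
def φ (u : Fin 4) : List (Fin 4) :=
  match u with
  | 0 => [0, 1]
  | 1 => [2, 1]
  | 2 => [0, 3]
  | 3 => [2, 3]

/-- The fixed point of `φ`, defined through its binary recursion. -/
def y (n : ℕ) : Fin 4 :=
  if n % 4 = 0 then 0 else if n % 4 = 2 then 2 else if y (n / 2) = 0 ∨ y (n / 2) = 1 then 1 else 3
termination_by n
decreasing_by all_goals omega

theorem y0 {n : ℕ} (h : n % 4 = 0) : y n = 0 := by rw [y, if_pos h]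

theorem y2 {n : ℕ} (h : n % 4 = 2) : y n = 2 := by rw [y, if_neg (by omega), if_pos h]

theorem yodd (n : ℕ) : y (2 * n + 1) = if y n = 0 ∨ y n = 1 then 1 else 3 := by
  rw [y, if_neg (by omega), if_neg (by omega), show (2 * n + 1) / 2 = n by omega]

theorem yeven (n : ℕ) : y (2 * n) = if n % 2 = 0 then 0 else 2 := by
  split_ifs with h
  · exact y0 (by omega)
  · exact y2 (by omega)

theorem y_even_iff (n : ℕ) : n % 2 = 0 ↔ y n = 0 ∨ y n = 2 := by
  constructor
  · intro h
    rcases (show n % 4 = 0 ∨ n % 4 = 2 by omega) with h | h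
    · exact Or.inl (y0 h)
    · exact Or.inr (y2 h)
  · intro h
    by_contra hcon
    obtain ⟨m, rfl⟩ : ∃ m, n = 2 * m + 1 := ⟨n / 2, by omega⟩
    rw [yodd] at h
    split_ifs at h <;> simp at h

theorem phi_y (n : ℕ) : φ (y n) = [y (2 * n), y (2 * n + 1)] := by
  rw [yodd, yeven]
  have h := y_even_iff n
  generalize y n = u at h
  by_cases h2 : n % 2 = 0
  · rw [if_pos h2]
    have := h.1 h2
    fin_cases u <;> simp_all [φ]
  · rw [if_neg h2]
    have := mt h.2 h2
    fin_cases u <;> simp_all [φ]

/-- Equality of letters from the images. -/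
theorem y_inj {n m : ℕ} (h1 : n % 2 = m % 2) (h2 : y (2 * n + 1) = y (2 * m + 1)) : y n = y m := by
  rw [yodd, yodd] at h2
  have e1 := y_even_iff n
  have e2 := y_even_iff m
  rw [h1] at e1
  generalize y n = u at e1 h2
  generalize y m = v at e2 h2
  by_cases hP : m % 2 = 0
  · replace e1 := e1.1 hP
    replace e2 := e2.1 hP
    revert u v
    decide
  · replace e1 := mt e1.2 hP
    replace e2 := mt e2.2 hP
    revert u v
    decide

theorem mod4 {n m : ℕ} (h : y n = y m) (h2 : n % 2 = 0) : n % 4 = m % 4 := by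
  have e1 := (y_even_iff n).1 h2
  have e2 : m % 2 = 0 := (y_even_iff m).2 (by rw [← h]; exact e1)
  rcases (show n % 4 = 0 ∨ n % 4 = 2 by omega) with a | a <;>
    rcases (show m % 4 = 0 ∨ m % 4 = 2 by omega) with b | b
  · omega
  · rw [y0 a, y2 b] at h
    exact absurd h (by decide)
  · rw [y2 a, y0 b] at h
    exact absurd h (by decide)
  · omega

theorem mod2 {n m : ℕ} (h : y n = y m) : n % 2 = m % 2 := by
  have e1 := y_even_iff n
  have e2 := y_even_iff m
  rw [h] at e1
  have := e1.trans e2.symm
  omega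

/-- The windows of length at most `17`. -/
def tab (u v : Fin 4) : List (Fin 4) :=
  (((([u, v].flatMap φ).flatMap φ).flatMap φ).flatMap φ)

theorem phi_fac (s n : ℕ) : (fac y s n).flatMap φ = fac y (2 * s) (2 * n) := by
  induction n with
  | zero => simp [fac]
  | succ n ih =>
    have e1 : fac y s (n + 1) = fac y s n ++ [y (s + n)] := by simp [fac, List.range_succ]
    have e2 : fac y (2 * s) (2 * (n + 1)) =
        fac y (2 * s) (2 * n) ++ [y (2 * (s + n)), y (2 * (s + n) + 1)] := by
      rw [show 2 * (n + 1) = 2 * n + 1 + 1 by ring]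
      simp only [fac, List.range_succ, List.map_append, List.map_cons, List.map_nil,
        List.append_assoc, List.cons_append, List.nil_append]
      rw [show 2 * (s + n) = 2 * s + 2 * n by ring, show 2 * s + 2 * n + 1 = 2 * s + (2 * n + 1) by
        ring]
    rw [e1, List.flatMap_append, ih, e2]
    simp [phi_y]

theorem tab_eq (q : ℕ) : tab (y q) (y (q + 1)) = fac y (16 * q) 32 := by
  have h : [y q, y (q + 1)] = fac y q 2 := by simp [fac, List.range_succ]
  rw [tab, h, phi_fac, phi_fac, phi_fac, phi_fac]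
  congr 1
  ring

theorem tab_get (s k : ℕ) (hk : s % 16 + k < 32) :
    y (s + k) = (tab (y (s / 16)) (y (s / 16 + 1))).getD (s % 16 + k) 0 := by
  rw [tab_eq]
  simp only [fac, List.getD_eq_getElem?_getD, List.getElem?_map, List.getElem?_range hk,
    Option.map_some, Option.getD_some]
  congr 1
  omega

/-- The word `l` has equal factors of length `m` at `i` and `i + p`. -/
def eqv (l : List (Fin 4)) (i p m : ℕ) : Bool :=
  (List.range m).all fun k => l.getD (i + (p + k)) 0 == l.getD (i + k) 0

theorem eqv_iff (l : List (Fin 4)) (i p m : ℕ) :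
    eqv l i p m = true ↔ ∀ k < m, l.getD (i + (p + k)) 0 = l.getD (i + k) 0 := by
  simp [eqv]

theorem base8 : ∀ u v : Fin 4, u.val % 2 ≠ v.val % 2 → ∀ i < 16, ∀ p < 8, 1 ≤ p →
    eqv (tab u v) i p (8 - p) = true → ∃ q < p, 0 < q ∧ eqv (tab u v) i q (8 - p) = true := by
  decide +kernel

theorem ret15 : ∀ u v : Fin 4, u.val % 2 ≠ v.val % 2 → ∀ i < 16, ∃ q < 15, 0 < q ∧
    (tab u v).getD (i + q) 0 = (tab u v).getD i 0 := by
  decide +kernel

theorem par (q : ℕ) : (y q).val % 2 ≠ (y (q + 1)).val % 2 := by
  have e1 := y_even_iff q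
  have e2 := y_even_iff (q + 1)
  have h : ∀ u : Fin 4, (u = 0 ∨ u = 2) ↔ u.val % 2 = 0 := by decide
  rw [h] at e1 e2
  omega

theorem noR8 (s p : ℕ) : ¬ R y s 8 p := by
  rintro ⟨h1, h2, h3, h4⟩
  obtain ⟨q, hq, h0, h⟩ := base8 _ _ (par (s / 16)) (s % 16) (by omega) p h2 h1
    ((eqv_iff _ _ _ _).2 fun k hk => by
      rw [← tab_get s _ (by omega), ← tab_get s _ (by omega)]
      exact h3 k (by omega))
  refine h4 q h0 hq fun k hk => ?_
  rw [tab_get s _ (by omega), tab_get s _ (by omega)]
  exact (eqv_iff _ _ _ _).1 h k (by omega)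

theorem descend {s n p : ℕ} (hn : 8 ≤ n) (h : R y s (2 * n) p) : ∃ s' p', R y s' n p' := by
  obtain ⟨h1, h2, h3, h4⟩ := h
  -- the border has at least two letters
  have hp : p + 1 < 2 * n := by
    by_contra hcon
    obtain ⟨q, hq, hq0, hqe⟩ := ret15 _ _ (par (s / 16)) (s % 16) (by omega)
    refine h4 q hq0 (by omega) fun k hk => ?_
    obtain rfl : k = 0 := by omega
    have e := tab_get s 0 (by omega)
    rw [tab_get s _ (by omega), add_zero, hqe, add_zero]
    rw [add_zero, add_zero] at e
    rw [e]
  have hp4 : p % 4 = 0 := by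
    rcases Nat.mod_two_eq_zero_or_one s with hs | hs
    · have := mod4 (h3 0 (by omega)).symm (by omega)
      omega
    · have := mod4 (h3 1 (by omega)).symm (by omega)
      omega
  obtain ⟨p', rfl⟩ : ∃ p', p = 2 * p' := ⟨p / 2, by omega⟩
  rcases Nat.mod_two_eq_zero_or_one s with hs | hs
  · obtain ⟨s', rfl⟩ : ∃ s', s = 2 * s' := ⟨s / 2, by omega⟩
    refine ⟨s', p', by omega, by omega, fun k hk => ?_, fun q h0 hq hcon => ?_⟩
    · refine y_inj (by omega) ?_
      have := h3 (2 * k + 1) (by omega)
      rw [show 2 * (s' + (p' + k)) + 1 = 2 * s' + (2 * p' + (2 * k + 1)) by ring, this]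
      congr 1
      ring
    · refine h4 (2 * q) (by omega) (by omega) fun K hK => ?_
      have e := hcon (K / 2) (by omega)
      have e2 := mod2 e
      rcases Nat.mod_two_eq_zero_or_one K with hK2 | hK2
      · obtain ⟨k, rfl⟩ : ∃ k, K = 2 * k := ⟨K / 2, by omega⟩
        rw [show 2 * k / 2 = k by omega] at e e2
        rw [show 2 * s' + (2 * q + 2 * k) = 2 * (s' + (q + k)) by ring,
          show 2 * s' + 2 * k = 2 * (s' + k) by ring, yeven, yeven, e2]
      · obtain ⟨k, rfl⟩ : ∃ k, K = 2 * k + 1 := ⟨K / 2, by omega⟩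
        rw [show (2 * k + 1) / 2 = k by omega] at e e2
        rw [show 2 * s' + (2 * q + (2 * k + 1)) = 2 * (s' + (q + k)) + 1 by ring,
          show 2 * s' + (2 * k + 1) = 2 * (s' + k) + 1 by ring, yodd, yodd, e]
  · obtain ⟨s', rfl⟩ : ∃ s', s = 2 * s' + 1 := ⟨s / 2, by omega⟩
    refine ⟨s', p', by omega, by omega, fun k hk => ?_, fun q h0 hq hcon => ?_⟩
    · refine y_inj (by omega) ?_
      have := h3 (2 * k) (by omega)
      rw [show 2 * (s' + (p' + k)) + 1 = 2 * s' + 1 + (2 * p' + 2 * k) by ring, this]
      congr 1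
      ring
    · have hq2 := mod2 (hcon 0 (by omega))
      refine h4 (2 * q) (by omega) (by omega) fun K hK => ?_
      rcases Nat.mod_two_eq_zero_or_one K with hK2 | hK2
      · obtain ⟨k, rfl⟩ : ∃ k, K = 2 * k := ⟨K / 2, by omega⟩
        have e := hcon k (by omega)
        rw [show 2 * s' + 1 + (2 * q + 2 * k) = 2 * (s' + (q + k)) + 1 by ring,
          show 2 * s' + 1 + 2 * k = 2 * (s' + k) + 1 by ring, yodd, yodd, e]
      · obtain ⟨k, rfl⟩ : ∃ k, K = 2 * k + 1 := ⟨K / 2, by omega⟩
        rw [show 2 * s' + 1 + (2 * q + (2 * k + 1)) = 2 * (s' + (q + k) + 1) by ring,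
          show 2 * s' + 1 + (2 * k + 1) = 2 * (s' + k + 1) by ring, yeven, yeven]
        have : (s' + (q + k) + 1) % 2 = (s' + k + 1) % 2 := by omega
        rw [this]

theorem noR (j : ℕ) : ∀ s p, ¬ R y s (8 * 2 ^ j) p := by
  induction j with
  | zero => exact noR8
  | succ j ih =>
    intro s p h
    rw [show 8 * 2 ^ (j + 1) = 2 * (8 * 2 ^ j) by ring] at h
    obtain ⟨s', p', h'⟩ := descend (by have := Nat.one_le_two_pow (n := j); omega) h
    exact ih s' p' h'

theorem cl_y (j : ℕ) : cl y (8 * 2 ^ j) = 0 := by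
  unfold cl
  rw [Set.ncard_eq_zero (facs_finite y _)]
  ext w
  simp only [Set.mem_empty_iff_false, iff_false]
  rintro ⟨⟨s, rfl⟩, hc⟩
  obtain ⟨p, hp⟩ := closed_R (by have := Nat.one_le_two_pow (n := j); omega) hc
  exact noR j s p hp

theorem y_aperiodic : ¬ UltimatelyPeriodic y := by
  rintro ⟨p, N, hp, h⟩
  induction p using Nat.strong_induction_on with
  | _ p ih =>
    have h4 : p % 4 = 0 := by
      have := mod4 (h (2 * N) (by omega)).symm (by omega)
      omega
    refine ih (p / 2) (by omega) (by omega) fun n hn => y_inj (by omega) ?_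
    have := h (2 * n + 1) (by omega)
    rw [← this]
    congr 1
    omega

theorem iter_y (m : ℕ) : (morph φ)^[m] [0] = fac y 0 (2 ^ m) := by
  induction m with
  | zero => simp [fac, y0]
  | succ m ih =>
    rw [Function.iterate_succ_apply', ih, morph, phi_fac]
    congr 1
    ring

theorem y_pure : PureMorphic y := by
  refine ⟨φ, 0, ⟨[1], rfl⟩, ?_, fun m => by rw [iter_y, fac_length]⟩
  simp only [iter_y, fac_length]
  exact tendsto_pow_atTop_atTop_of_one_lt (by norm_num)

/-! ### The case `k ≥ 1` -/

/-- A word whose last marked letter is followed by more copies of one letter than there are letters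
before it is open. -/
theorem open_right {A : Type} {x : ℕ → A} {s n c : ℕ} {e : A} (hc : x (s + c) ≠ e)
    (hz : ∀ k, c < k → k < n → x (s + k) = e) (ht : 2 * c + 1 < n) :
    ¬ IsClosed (fac x s n) := by
  intro hcl
  obtain ⟨p, h1, h2, h3, h4⟩ := closed_R (by omega) hcl
  rcases Nat.lt_or_ge p (c + 1) with h | h
  · -- the border contains the marked letter
    have e2 := h3 c (by omega)
    rw [hz _ (by omega) (by omega)] at e2
    exact hc e2.symm
  · have hz2 : ∀ k, k + p < n → x (s + k) = e := by
      intro k hk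
      rw [← h3 k hk]
      exact hz _ (by omega) (by omega)
    have hmc : n ≤ c + p := by
      by_contra hcon
      exact hc (hz2 c (by omega))
    refine h4 (p - 1) (by omega) (by omega) fun k hk => ?_
    rw [hz2 k hk]
    exact hz _ (by omega) (by omega)

/-- A word whose first marked letter is preceded by at least as many copies of one letter as there
are letters after it is open. -/
theorem open_left {A : Type} {x : ℕ → A} {s n c : ℕ} {e : A} (hcn : c < n)
    (hc : x (s + c) ≠ e) (hz : ∀ k, k < c → x (s + k) = e) (ht : n < 2 * c + 1) :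
    ¬ IsClosed (fac x s n) := by
  intro hcl
  rcases Nat.lt_or_ge n 2 with hn | hn
  · omega
  obtain ⟨p, h1, h2, h3, h4⟩ := closed_R hn hcl
  have hcp : c < p := by
    by_contra hcon
    have e1 := h3 (c - p) (by omega)
    rw [show p + (c - p) = c by omega, hz (c - p) (by omega)] at e1
    exact hc e1
  refine h4 1 (by omega) (by omega) fun k hk => ?_
  rw [hz (1 + k) (by omega), hz k (by omega)]

/-- The letters: `none = z`, `some none = f`, `some (some i) = eᵢ`. -/
abbrev Let (K : ℕ) : Type := Option (Option (ZMod (K + 1)))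

/-- The letter of the `t`-th block. -/
def e (K t : ℕ) : Let K := some (some (t : ZMod (K + 1)))

/-- The words `φ^t(z)`. -/
def W (K : ℕ) : ℕ → List (Let K)
  | 0 => [none]
  | t + 1 => W K t ++ (List.replicate (4 ^ t) (e K t) ++ [some none])

/-- Their lengths. -/
def L : ℕ → ℕ
  | 0 => 1
  | t + 1 => L t + 4 ^ t + 1

theorem W_length (K t : ℕ) : (W K t).length = L t := by
  induction t with
  | zero => rfl
  | succ t ih => simp [W, L, ih]; ring

theorem four_pos (t : ℕ) : 1 ≤ 4 ^ t := Nat.one_le_pow _ _ (by norm_num)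

theorem lt_four (t : ℕ) : t < 4 ^ t := Nat.lt_pow_self (by norm_num)

theorem L_lt (t : ℕ) : t < L t := by
  induction t with
  | zero => simp [L]
  | succ t ih => have := four_pos t; rw [L]; omega

theorem L_strictMono : StrictMono L :=
  strictMono_nat_of_lt_succ fun t => by have := four_pos t; rw [L]; omega

theorem L_bound (t : ℕ) : 2 * L (t + 3) + 2 ≤ 4 ^ (t + 3) := by
  induction t with
  | zero => norm_num [L]
  | succ t ih =>
    have h : 4 ^ (t + 1 + 3) = 4 * 4 ^ (t + 3) := by ring
    have h2 : 4 ^ 3 ≤ 4 ^ (t + 3) := Nat.pow_le_pow_right (by norm_num) (by omega)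
    rw [show t + 1 + 3 = (t + 3) + 1 by ring] at *
    rw [L, h]
    omega

theorem W_prefix (K : ℕ) {s t : ℕ} (h : s ≤ t) : W K s <+: W K t := by
  induction h with
  | refl => exact List.prefix_refl _
  | step _ ih => exact ih.trans (List.prefix_append _ _)

/-- The word `z e₀ f e₁⁴ f e₂¹⁶ f …`. -/
def x (K n : ℕ) : Let K := (W K n).getD n none

theorem x_eq {K n t : ℕ} (h : n < L t) : x K n = (W K t).getD n none := by
  have key : ∀ a b, a ≤ b → n < L a → (W K a).getD n none = (W K b).getD n none := by
    intro a b hab ha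
    obtain ⟨u, hu⟩ := W_prefix K hab
    rw [← hu, List.getD_append _ _ _ _ (by rw [W_length]; exact ha)]
  rcases le_total n t with h1 | h1
  · exact key n t h1 (L_lt n)
  · exact (key t n h1 h).symm

theorem x_block {K n t : ℕ} (h1 : L t ≤ n) (h2 : n + 1 < L (t + 1)) : x K n = e K t := by
  rw [L] at h2
  have h0 := four_pos t
  rw [x_eq (t := t + 1) (by rw [L]; omega), W, List.getD_append_right _ _ _ _
    (by rw [W_length]; exact h1), W_length, List.getD_append _ _ _ _
    (by rw [List.length_replicate]; omega), List.getD_replicate _ (by omega)]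

theorem x_mark (K t i : ℕ) : x K (L t - 1) ≠ e K i := by
  cases t with
  | zero =>
    simp [L, x_eq (K := K) (n := 0) (t := 0) (by simp [L]), W, e]
  | succ t =>
    have h0 := four_pos t
    have h : L (t + 1) - 1 = L t + 4 ^ t := by rw [L]; omega
    rw [h, x_eq (t := t + 1) (by rw [L]; omega), W, List.getD_append_right _ _ _ _
      (by rw [W_length]; omega), W_length, List.getD_append_right _ _ _ _
      (by rw [List.length_replicate]; omega)]
    simp [e]

theorem exists_block (t s : ℕ) (h : L t ≤ s) : ∃ j, t ≤ j ∧ L j ≤ s ∧ s < L (j + 1) := by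
  have hex : ∃ j, s < L (j + 1) := ⟨s, (L_lt s).trans (L_strictMono (by omega))⟩
  refine ⟨Nat.find hex, ?_, ?_, Nat.find_spec hex⟩
  · by_contra hcon
    have h1 := Nat.find_spec hex
    have h2 : L (Nat.find hex + 1) ≤ L t := L_strictMono.monotone (by omega)
    omega
  · rcases Nat.eq_zero_or_pos (Nat.find hex) with h0 | h0
    · rw [h0]
      exact (L_strictMono.monotone (Nat.zero_le t)).trans h
    · by_contra hcon
      refine Nat.find_min hex (m := Nat.find hex - 1) (by omega) ?_
      rw [show Nat.find hex - 1 + 1 = Nat.find hex by omega]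
      omega

theorem closed_const {K t s : ℕ} (h : IsClosed (fac (x K) s (4 ^ (t + 3)))) :
    ∃ i, ∀ k < 4 ^ (t + 3), x K (s + k) = e K i := by
  have hb := L_bound t
  obtain ⟨m, hm⟩ : ∃ m, 4 ^ (t + 3) = 2 * m := ⟨2 * 4 ^ (t + 2), by ring⟩
  rcases Nat.lt_or_ge s (L (t + 3)) with hs | hs
  · exfalso
    refine open_right (c := L (t + 3) - 1 - s) (e := e K (t + 3)) ?_ ?_ (by omega) h
    · rw [show s + (L (t + 3) - 1 - s) = L (t + 3) - 1 by omega]
      exact x_mark K _ _
    · intro k hk hk2
      refine x_block (by omega) ?_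
      rw [show t + 3 + 1 = (t + 3) + 1 from rfl, L]
      omega
  · obtain ⟨j, hj, hj1, hj2⟩ := exists_block (t + 3) s hs
    have hp1 : 4 ^ (t + 3) ≤ 4 ^ j := Nat.pow_le_pow_right (by norm_num) hj
    have hp2 : 4 ^ (t + 3) ≤ 4 ^ (j + 1) := Nat.pow_le_pow_right (by norm_num) (by omega)
    rcases Nat.lt_or_ge (L (j + 1) - 1 - s) (4 ^ (t + 3)) with hc | hc
    · exfalso
      have hmark : ∀ i, x K (s + (L (j + 1) - 1 - s)) ≠ e K i := by
        intro i
        rw [show s + (L (j + 1) - 1 - s) = L (j + 1) - 1 by omega]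
        exact x_mark K _ _
      have hz' : ∀ k, L (j + 1) - 1 - s < k → k < 4 ^ (t + 3) → x K (s + k) = e K (j + 1) := by
        intro k hk hk2
        refine x_block (by omega) ?_
        rw [L]
        omega
      rcases lt_trichotomy (2 * (L (j + 1) - 1 - s) + 1) (4 ^ (t + 3)) with h5 | h5 | h5
      · exact open_right (hmark _) hz' h5 h
      · omega
      · exact open_left hc (hmark _) (fun k hk => x_block (K := K) (t := j) (by omega)
          (by omega)) h5 h
    · exact ⟨j, fun k hk => x_block (by omega) (by omega)⟩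

/-- The block words. -/
def rep (K n : ℕ) (i : ZMod (K + 1)) : List (Let K) := List.replicate n (some (some i))

theorem rep_closed (K n : ℕ) (i : ZMod (K + 1)) : IsClosed (rep K n i) := by
  rcases Nat.lt_or_ge n 2 with h | h
  · left
    rw [rep, List.length_replicate]
    omega
  · right
    refine ⟨List.replicate (n - 1) (some (some i)), ?_, ?_, ?_, ?_⟩
    · intro hcon
      have := congrArg List.length hcon
      rw [rep, List.length_replicate, List.length_replicate] at this
      omega
    · refine ⟨List.replicate 1 (some (some i)), ?_⟩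
      rw [← List.replicate_add, rep]
      congr 1
      omega
    · refine ⟨List.replicate 1 (some (some i)), ?_⟩
      rw [← List.replicate_add, rep]
      congr 1
      omega
    · have : occ (List.replicate (n - 1) (some (some i))) (rep K n i) = {0, 1} := by
        ext p
        simp only [occ, rep, Set.mem_ofPred_eq, List.length_replicate, List.drop_replicate,
          Set.mem_insert_iff, Set.mem_singleton_iff]
        constructor
        · rintro ⟨h1, h2⟩
          have := h2.length_le
          rw [List.length_replicate, List.length_replicate] at this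
          omega
        · intro hp
          refine ⟨by omega, ⟨List.replicate (n - p - (n - 1)) (some (some i)), ?_⟩⟩
          rw [← List.replicate_add]
          congr 1
          omega
      rw [this, Set.ncard_pair (by norm_num)]

theorem rep_fac (K n : ℕ) (i : ZMod (K + 1)) : ∃ s, rep K n i = fac (x K) s n := by
  -- the block with index `t = i + (K + 1) n`
  obtain ⟨t, ht, hi⟩ : ∃ t : ℕ, n ≤ t ∧ ((t : ℕ) : ZMod (K + 1)) = i := by
    refine ⟨i.val + (K + 1) * n, by nlinarith, ?_⟩
    push_cast
    rw [ZMod.natCast_zmod_val]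
    have : ((K : ZMod (K + 1)) + 1) = 0 := by
      have := ZMod.natCast_self (K + 1)
      push_cast at this
      exact this
    rw [this]
    ring
  refine ⟨L t, ?_⟩
  have h4 : n < 4 ^ t := lt_of_le_of_lt ht (lt_four t)
  refine List.ext_getElem (by rw [fac_length, rep, List.length_replicate]) fun k hk hk2 => ?_
  rw [rep, List.length_replicate] at hk
  simp only [rep, fac, List.getElem_replicate, List.getElem_map, List.getElem_range]
  rw [x_block (t := t) (by omega) (by rw [L]; omega), e, hi]

theorem le_cl (K n : ℕ) (hn : 1 ≤ n) : K + 1 ≤ cl (x K) n := by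
  have hinj : Function.Injective (rep K n) := by
    intro i j hij
    have := congrArg List.head? hij
    rw [rep, rep] at this
    obtain ⟨m, rfl⟩ : ∃ m, n = m + 1 := ⟨n - 1, by omega⟩
    simpa [List.replicate_succ] using this
  have h1 : Set.range (rep K n) ⊆ {w | (∃ s, w = fac (x K) s n) ∧ IsClosed w} := by
    rintro w ⟨i, rfl⟩
    exact ⟨rep_fac K n i, rep_closed K n i⟩
  have h2 := Set.ncard_le_ncard h1 (facs_finite (x K) n)
  rw [← Set.image_univ, Set.ncard_image_of_injective _ hinj, Set.ncard_univ, Nat.card_zmod] at h2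
  exact h2

theorem cl_eq (K t : ℕ) : cl (x K) (4 ^ (t + 3)) = K + 1 := by
  refine le_antisymm ?_ (le_cl K _ (four_pos _))
  have h1 : {w | (∃ s, w = fac (x K) s (4 ^ (t + 3))) ∧ IsClosed w} ⊆
      Set.range (rep K (4 ^ (t + 3))) := by
    rintro w ⟨⟨s, rfl⟩, hc⟩
    obtain ⟨i, hi⟩ := closed_const hc
    refine ⟨(i : ZMod (K + 1)), ?_⟩
    refine List.ext_getElem (by rw [fac_length, rep, List.length_replicate]) fun k hk hk2 => ?_
    rw [rep, List.length_replicate] at hk
    simp only [rep, fac, List.getElem_replicate, List.getElem_map, List.getElem_range]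
    rw [hi k hk, e]
  have h2 := Set.ncard_le_ncard h1 (Set.finite_range _)
  refine h2.trans ?_
  rw [← Set.image_univ]
  refine (Set.ncard_image_le Set.finite_univ).trans ?_
  rw [Set.ncard_univ, Nat.card_zmod]

theorem x_aperiodic (K : ℕ) : ¬ UltimatelyPeriodic (x K) := by
  rintro ⟨p, N, hp, h⟩
  have h1 := L_lt (N + p + 1)
  have h2 := lt_four (N + p + 1)
  refine x_mark K (N + p + 1) (N + p + 1) ?_
  rw [← h _ (by omega)]
  exact x_block (by omega) (by rw [L.eq_2 (N + p + 1)]; omega)

/-- The morphism `z → z e₀ f`, `f → f`, `eᵢ → eᵢ₊₁⁴`. -/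
def ψ (K : ℕ) : Let K → List (Let K)
  | none => [none, some (some 0), some none]
  | some none => [some none]
  | some (some i) => List.replicate 4 (some (some (i + 1)))

theorem psi_rep (K n t : ℕ) : (List.replicate n (e K t)).flatMap (ψ K) =
    List.replicate (4 * n) (e K (t + 1)) := by
  induction n with
  | zero => simp
  | succ n ih =>
    rw [List.replicate_succ, List.flatMap_cons, ih, e, ψ]
    have : some (some ((t : ZMod (K + 1)) + 1)) = e K (t + 1) := by
      rw [e]
      push_cast
      rfl
    rw [this, ← List.replicate_add]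
    congr 1
    ring

theorem psi_W (K t : ℕ) : (W K t).flatMap (ψ K) = W K (t + 1) := by
  induction t with
  | zero => simp [W, ψ, e]
  | succ t ih =>
    rw [W, List.flatMap_append, ih, List.flatMap_append, psi_rep]
    rw [W.eq_2 K (t + 1), show 4 * 4 ^ t = 4 ^ (t + 1) by ring]
    simp [ψ]

theorem iter_x (K m : ℕ) : (morph (ψ K))^[m] [none] = W K m := by
  induction m with
  | zero => rfl
  | succ m ih => rw [Function.iterate_succ_apply', ih, morph, psi_W]

theorem x_pure (K : ℕ) : PureMorphic (x K) := by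
  refine ⟨ψ K, none, ⟨_, rfl⟩, ?_, fun m => ?_⟩
  · simp only [iter_x, W_length]
    exact L_strictMono.tendsto_atTop
  · rw [iter_x, W_length]
    refine List.ext_getElem (by rw [fac_length, W_length]) fun k hk hk2 => ?_
    simp only [fac, List.getElem_map, List.getElem_range, zero_add]
    rw [x_eq (t := m) (by rw [← W_length K m]; exact hk), List.getD_eq_getElem _ _ hk]

/-- For every natural number `k` there is an aperiodic pure morphic word over a finite alphabet
whose closed complexity has lim inf `k`. -/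
theorem result (k : ℕ) : ∃ (A : Type) (_ : Fintype A) (x : ℕ → A), ¬ UltimatelyPeriodic x ∧
    PureMorphic x ∧ Filter.liminf (fun n => (cl x n : ℕ∞)) Filter.atTop = k := by
  cases k with
  | zero =>
    refine ⟨Fin 4, inferInstance, y, y_aperiodic, y_pure, liminf_eq (fun n _ => Nat.zero_le _) ?_⟩
    intro a
    refine ⟨8 * 2 ^ a, ?_, cl_y a⟩
    have := Nat.lt_two_pow_self (n := a)
    omega
  | succ K =>
    refine ⟨Let K, inferInstance, x K, x_aperiodic K, x_pure K, liminf_eq (le_cl K) ?_⟩
    intro a
    refine ⟨4 ^ (a + 3), ?_, cl_eq K a⟩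
    have := lt_four (a + 3)
    omega

end Pool.Agent.Results.MP_c8d5ab_co.AllValues
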